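import Pool.Agent.Helper35.HC.StF

set_option autoImplicit false

namespace Helper6.HC

open Helper35.HC Helper35.HSF Helper35.MS Helper35.PI Helper35.PI2 Helper32.CL
open scoped ContDiff Manifold Topology ENNReal BigOperators
open MeasureTheory Set Filter

theorem slice_cont {n : ℕ} {M : Type} [TopologicalSpace M] [ChartedSpace (EE n) M] (J : Set ℝ)
    (u : M → ℝ → ℝ) (h : SmJ n J u) (t : ℝ) (ht : t ∈ J) : Continuous (fun q => u q t) := by
  have h1 : ContinuousOn (fun z : M × ℝ => u z.1 z.2) (univ ×ˢ J) := h.continuousOn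
  have h2 : Continuous (fun q : M => ((q, t) : M × ℝ)) := by fun_prop
  have h3 := h1.comp_continuous h2 (fun q => ⟨mem_univ _, ht⟩)
  exact h3

/-- numbers -/
theorem num (s α C n N l : ℝ) (hs0 : 0 < s) (hs1 : s ≤ 1) (hα : 0 < α) (hC : 1 ≤ C)
    (hn : 1 ≤ n) (hN : 0 ≤ N) (hl : 0 < l) (hω : |2 * n * s * l ^ 2 - 1| ≤ C * s ^ α)
    (hω2 : C * s ^ α ≤ 1 / 2) :
    1 / s ≤ 4 * n * l ^ 2 ∧ 1 / l ≤ Real.sqrt (4 * n) * s ^ (1 / 2 : ℝ) ∧
    |1 / l - Real.sqrt (2 * n * s)| ≤ C * Real.sqrt (4 * n) * s ^ (1 / 2 + α / 4) ∧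
    Real.sqrt (36 * (N + 1) * (4 * n * Real.sqrt C * s ^ (α / 2))) / l ≤
      Real.sqrt (144 * (N + 1) * n * Real.sqrt C) * Real.sqrt (4 * n) * s ^ (1 / 2 + α / 4) := by
  obtain ⟨hw1, hw2⟩ := abs_le.1 hω
  have hlow : 1 / 2 ≤ 2 * n * s * l ^ 2 := by linarith
  have hl2 : 0 < l ^ 2 := by positivity
  have h1 : 1 / s ≤ 4 * n * l ^ 2 := by
    rw [div_le_iff₀ hs0]
    nlinarith
  have h2 : 1 / l ≤ Real.sqrt (4 * n) * s ^ (1 / 2 : ℝ) := by
    rw [← Real.sqrt_eq_rpow, ← Real.sqrt_mul (by positivity)]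
    apply Real.le_sqrt_of_sq_le
    rw [div_pow, one_pow, div_le_iff₀ hl2]
    nlinarith
  have hr0 : 0 ≤ Real.sqrt (4 * n) := Real.sqrt_nonneg _
  have hsp : ∀ a : ℝ, 0 < s ^ a := fun a => Real.rpow_pos_of_pos hs0 a
  refine ⟨h1, h2, ?_, ?_⟩
  · set A := 1 / l with hA
    set B := Real.sqrt (2 * n * s) with hB
    have hA0 : 0 < A := by rw [hA]; positivity
    have hB0 : 0 ≤ B := Real.sqrt_nonneg _
    have hB2 : B ^ 2 = 2 * n * s := Real.sq_sqrt (by positivity)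
    have hA2 : A ^ 2 * l ^ 2 = 1 := by
      rw [hA]
      field_simp
    have h3 : B ^ 2 = A ^ 2 * (2 * n * s * l ^ 2) := by
      rw [hB2]
      calc 2 * n * s = 2 * n * s * (A ^ 2 * l ^ 2) := by rw [hA2, mul_one]
        _ = _ := by ring
    have h4 : |A - B| * (A + B) = |2 * n * s * l ^ 2 - 1| * A ^ 2 := by
      have h5 : (A - B) * (A + B) = -((2 * n * s * l ^ 2 - 1) * A ^ 2) := by
        have : (A - B) * (A + B) = A ^ 2 - B ^ 2 := by ring
        rw [this, h3]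
        ring
      have h6 := congrArg abs h5
      rw [abs_mul, abs_neg, abs_mul, abs_of_pos (by linarith : 0 < A + B),
        abs_of_pos (by positivity : 0 < A ^ 2)] at h6
      exact h6
    have h7 : |A - B| * A ≤ |2 * n * s * l ^ 2 - 1| * A ^ 2 := by
      rw [← h4]
      apply mul_le_mul_of_nonneg_left _ (abs_nonneg _)
      linarith
    have h8 : |A - B| ≤ |2 * n * s * l ^ 2 - 1| * A := by
      have : |A - B| * A ≤ (|2 * n * s * l ^ 2 - 1| * A) * A := by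
        calc |A - B| * A ≤ |2 * n * s * l ^ 2 - 1| * A ^ 2 := h7
          _ = _ := by ring
      exact le_of_mul_le_mul_right this hA0
    have h9 : |2 * n * s * l ^ 2 - 1| * A ≤ C * s ^ α * (Real.sqrt (4 * n) * s ^ (1 / 2 : ℝ)) :=
      mul_le_mul hω h2 hA0.le (by have := hsp α; positivity)
    have h10 : C * s ^ α * (Real.sqrt (4 * n) * s ^ (1 / 2 : ℝ)) =
        C * Real.sqrt (4 * n) * s ^ (1 / 2 + α) := by
      rw [Real.rpow_add hs0]
      ring
    have h11 : s ^ (1 / 2 + α) ≤ s ^ (1 / 2 + α / 4) :=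
      Real.rpow_le_rpow_of_exponent_ge hs0 hs1 (by linarith)
    calc |A - B| ≤ C * Real.sqrt (4 * n) * s ^ (1 / 2 + α) := by linarith
      _ ≤ _ := mul_le_mul_of_nonneg_left h11 (by positivity)
  · have h3 : Real.sqrt (36 * (N + 1) * (4 * n * Real.sqrt C * s ^ (α / 2))) =
        Real.sqrt (144 * (N + 1) * n * Real.sqrt C) * s ^ (α / 4) := by
      have h4 : 36 * (N + 1) * (4 * n * Real.sqrt C * s ^ (α / 2)) =
          (144 * (N + 1) * n * Real.sqrt C) * s ^ (α / 2) := by ring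
      rw [h4, Real.sqrt_mul (by positivity)]
      congr 1
      rw [Real.sqrt_eq_rpow, ← Real.rpow_mul hs0.le]
      congr 1
      ring
    rw [h3, div_eq_mul_one_div]
    calc Real.sqrt (144 * (N + 1) * n * Real.sqrt C) * s ^ (α / 4) * (1 / l)
        ≤ Real.sqrt (144 * (N + 1) * n * Real.sqrt C) * s ^ (α / 4) *
          (Real.sqrt (4 * n) * s ^ (1 / 2 : ℝ)) := by
          apply mul_le_mul_of_nonneg_left h2
          have := hsp (α / 4)
          positivity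
      _ = _ := by
          rw [Real.rpow_add hs0]
          ring

theorem hSPT (hSPF : StSPF) (hSMF : StSMF) : StSPT := by
  intro n hn N M _ _ _ _ _ _ T F t₄ C α h
  have hn1 : (1 : ℝ) ≤ n := by exact_mod_cast (by omega : 1 ≤ n)
  have hn0 : (0 : ℝ) < n := by linarith
  have hC0 : 0 < C := by linarith [h.C1]
  have hα := h.α0
  have hsqC : 0 < Real.sqrt C := Real.sqrt_pos.2 hC0
  have hN0 : (0 : ℝ) ≤ N := Nat.cast_nonneg N
  set κ : ℝ := 1 / (14400 * ((N : ℝ) + 1) * (4 * n * Real.sqrt C)) with hκ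
  have hκ0 : 0 < κ := by rw [hκ]; positivity
  set t₅ : ℝ := max t₄ (T - κ ^ (2 / α)) with ht5
  have ht5T : t₅ < T := by
    rw [ht5]
    apply max_lt h.t4.2
    have : 0 < κ ^ (2 / α) := Real.rpow_pos_of_pos hκ0 _
    linarith
  have ht54 : t₄ ≤ t₅ := le_max_left _ _
  set C' : ℝ := 6 * (Real.sqrt (144 * ((N : ℝ) + 1) * n * Real.sqrt C) * Real.sqrt (4 * n)) +
    C * Real.sqrt (4 * n) with hC'
  have hC'0 : 0 < C' := by
    rw [hC']
    have : 0 < Real.sqrt (4 * n) := Real.sqrt_pos.2 (by positivity)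
    positivity
  refine ⟨t₅, C', ⟨ht54, ht5T⟩, hC'0, fun t ht => ?_⟩
  have ht4 : t ∈ Ico t₄ T := ⟨ht54.trans ht.1, ht.2⟩
  have htJ : t ∈ Ioo 0 T := ⟨h.t4.1.trans_le ht4.1, ht4.2⟩
  set s : ℝ := T - t with hs
  have hs0 : 0 < s := by rw [hs]; linarith [ht.2]
  have hs1 : s ≤ 1 := by
    have := h.T1
    have := htJ.1
    rw [hs]
    linarith
  have hsα : C * s ^ α ≤ 1 / 2 := by
    have h1 : s ^ α ≤ (T - t₄) ^ α :=
      Real.rpow_le_rpow hs0.le (by rw [hs]; linarith [ht4.1]) hα.le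
    exact (mul_le_mul_of_nonneg_left h1 hC0.le).trans h.sm
  have hsκ : s ^ (α / 2) ≤ κ := by
    have h1 : s ≤ κ ^ (2 / α) := by
      have h2 : T - κ ^ (2 / α) ≤ t := (le_max_right _ _).trans ht.1
      rw [hs]
      linarith
    calc s ^ (α / 2) ≤ (κ ^ (2 / α)) ^ (α / 2) := Real.rpow_le_rpow hs0.le h1 (by positivity)
      _ = κ := by
        rw [← Real.rpow_mul hκ0.le]
        have : 2 / α * (α / 2) = 1 := by field_simp
        rw [this, Real.rpow_one]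
  -- the maximum point
  have hsm := (hSMF n N M (Ioo 0 T) F h.fl.toIsImmJ).2.2.2.1
  have hcont : Continuous (fun q => ‖HH (n := n) F q t‖ ^ 2) :=
    slice_cont (Ioo 0 T) (fun q t => ‖HH (n := n) F q t‖ ^ 2) hsm t htJ
  obtain ⟨q₀, -, hq₀⟩ := isCompact_univ.exists_isMaxOn (univ_nonempty (α := M)) hcont.continuousOn
  have hmax : ∀ q, ‖HH (n := n) F q t‖ ≤ ‖HH (n := n) F q₀ t‖ := by
    intro q
    have h1 : ‖HH (n := n) F q t‖ ^ 2 ≤ ‖HH (n := n) F q₀ t‖ ^ 2 := hq₀ (mem_univ q)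
    exact (pow_le_pow_iff_left₀ (norm_nonneg _) (norm_nonneg _) two_ne_zero).1 h1
  have hH0 : 0 < ‖HH (n := n) F q₀ t‖ := by
    have h1 := h.Y1 t htJ q₀
    by_contra hcon
    have h2 : ‖HH (n := n) F q₀ t‖ = 0 := le_antisymm (not_lt.1 hcon) (norm_nonneg _)
    rw [h2] at h1
    norm_num at h1
  set l : ℝ := ‖HH (n := n) F q₀ t‖ / n with hl
  have hl0 : 0 < l := by rw [hl]; positivity
  have hnl : (n : ℝ) * l = ‖HH (n := n) F q₀ t‖ := by
    rw [hl]
    field_simp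
  have hω : |2 * n * s * l ^ 2 - 1| ≤ C * s ^ α := by
    have h1 := h.yy t ht4 q₀
    have h2 : 2 / n * ((T - t) * ‖HH (n := n) F q₀ t‖ ^ 2) = 2 * n * s * l ^ 2 := by
      rw [← hnl, ← hs]
      field_simp
    rwa [h2] at h1
  obtain ⟨hb1, -, hb3, hb4⟩ := num s α C n N l hs0 hs1 hα h.C1 hn1 hN0 hl0 hω hsα
  have hsα0 : 0 < s ^ α := Real.rpow_pos_of_pos hs0 _
  have hsα2 : 0 < s ^ (α / 2) := Real.rpow_pos_of_pos hs0 _
  set ε : ℝ := 4 * n * Real.sqrt C * s ^ (α / 2) with hε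
  have hε0 : 0 < ε := by rw [hε]; positivity
  have hε2 : ε ^ 2 = 16 * n ^ 2 * C * s ^ α := by
    rw [hε]
    have h1 : (s ^ (α / 2)) ^ 2 = s ^ α := by
      rw [← Real.rpow_natCast, ← Real.rpow_mul hs0.le]
      congr 1
      push_cast
      ring
    have h2 : Real.sqrt C ^ 2 = C := Real.sq_sqrt hC0.le
    calc (4 * n * Real.sqrt C * s ^ (α / 2)) ^ 2
        = 16 * n ^ 2 * (Real.sqrt C ^ 2) * (s ^ (α / 2)) ^ 2 := by ring
      _ = _ := by rw [h1, h2]
  have hSL : SLd n (Ioo 0 T) F t l ε q₀ := by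
    refine ⟨h.fl, htJ, ?_, hl0, hε0.le, hnl.symm, ?_, ?_, ?_⟩
    · intro q s' hs' h0
      have h1 := h.Y1 s' hs' q
      rw [h0] at h1
      norm_num at h1
    · intro q
      rw [hnl]
      exact hmax q
    · intro q
      refine (h.th t ht4 q).trans ?_
      rw [← hs, hε2]
      have h1 : s ^ (α - 1) = s ^ α * (1 / s) := by
        rw [Real.rpow_sub hs0, Real.rpow_one]
        ring
      rw [h1]
      have h2 : C * (s ^ α * (1 / s)) ≤ C * (s ^ α * (4 * n * l ^ 2)) := by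
        apply mul_le_mul_of_nonneg_left _ hC0.le
        exact mul_le_mul_of_nonneg_left hb1 hsα0.le
      refine h2.trans ?_
      have h3 : 4 * (n : ℝ) ≤ 16 * n ^ 2 := by nlinarith
      have h4 : 0 ≤ C * s ^ α * l ^ 2 := by positivity
      calc C * (s ^ α * (4 * n * l ^ 2)) = 4 * n * (C * s ^ α * l ^ 2) := by ring
        _ ≤ 16 * n ^ 2 * (C * s ^ α * l ^ 2) := mul_le_mul_of_nonneg_right h3 h4
        _ = _ := by ring
    · intro q
      refine (h.eh t ht4 q).trans ?_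
      rw [← hs, hε2]
      have h1 : s ^ (α - 2) = s ^ α * (1 / s) ^ 2 := by
        rw [Real.rpow_sub hs0]
        have : s ^ (2 : ℝ) = s ^ 2 := by
          rw [← Real.rpow_natCast]
          norm_num
        rw [this]
        field_simp
      rw [h1]
      have h5 : (1 / s) ^ 2 ≤ (4 * n * l ^ 2) ^ 2 :=
        pow_le_pow_left₀ (by positivity) hb1 2
      have h2 : C * (s ^ α * (1 / s) ^ 2) ≤ C * (s ^ α * (4 * n * l ^ 2) ^ 2) := by
        apply mul_le_mul_of_nonneg_left _ hC0.le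
        exact mul_le_mul_of_nonneg_left h5 hsα0.le
      refine h2.trans (le_of_eq ?_)
      ring
  set δ : ℝ := Real.sqrt (36 * ((N : ℝ) + 1) * ε) with hδ
  have hδ0 : 0 < δ := Real.sqrt_pos.2 (by positivity)
  have hδ2 : δ ^ 2 = 36 * ((N : ℝ) + 1) * ε := Real.sq_sqrt (by positivity)
  have hδ20 : δ ≤ 1 / 20 := by
    rw [hδ]
    rw [show (1 / 20 : ℝ) = Real.sqrt ((1 / 20) ^ 2) by rw [Real.sqrt_sq (by norm_num)]]
    apply Real.sqrt_le_sqrt
    have h1 : ε ≤ 4 * n * Real.sqrt C * κ := mul_le_mul_of_nonneg_left hsκ (by positivity)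
    have h2 : 36 * ((N : ℝ) + 1) * (4 * n * Real.sqrt C * κ) = (1 / 20) ^ 2 := by
      rw [hκ]
      field_simp
      norm_num
    calc 36 * ((N : ℝ) + 1) * ε ≤ 36 * ((N : ℝ) + 1) * (4 * n * Real.sqrt C * κ) :=
          mul_le_mul_of_nonneg_left h1 (by positivity)
      _ = _ := h2
  have hNε : 36 * (N : ℝ) * ε ≤ δ ^ 2 := by
    rw [hδ2]
    nlinarith
  obtain ⟨-, hinj, hdiff, L, c₀, hc1, hc2, hc3⟩ :=
    hSPF n N hn M (Ioo 0 T) F t l ε q₀ hSL δ hδ0 hδ20 hNε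
  set E : ℝ := s ^ (1 / 2 + α / 4) with hE
  have hE0 : 0 < E := Real.rpow_pos_of_pos hs0 _
  have hδl : δ / l ≤ Real.sqrt (144 * ((N : ℝ) + 1) * n * Real.sqrt C) * Real.sqrt (4 * n) * E :=
    hb4
  have hD0 : 0 ≤ Real.sqrt (144 * ((N : ℝ) + 1) * n * Real.sqrt C) * Real.sqrt (4 * n) := by
    positivity
  have hCn0 : 0 ≤ C * Real.sqrt (4 * n) := by positivity
  have hDE : 0 ≤ Real.sqrt (144 * ((N : ℝ) + 1) * n * Real.sqrt C) * Real.sqrt (4 * n) * E :=
    mul_nonneg hD0 hE0.le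
  have hCE : 0 ≤ C * Real.sqrt (4 * n) * E := mul_nonneg hCn0 hE0.le
  have key : ∀ (x : EE N) (y : EE (n + 1)), ‖y‖ = 1 → ‖x - (1 / l) • L y‖ ≤ 6 * δ / l →
      ‖x - Real.sqrt (2 * n * s) • L y‖ ≤ C' * E := by
    intro x y hy hx
    have h1 : x - Real.sqrt (2 * n * s) • L y =
        (x - (1 / l) • L y) + (1 / l - Real.sqrt (2 * n * s)) • L y := by
      rw [sub_smul]
      abel
    rw [h1]
    refine (norm_add_le _ _).trans ?_
    rw [norm_smul, LinearIsometry.norm_map, hy, mul_one, Real.norm_eq_abs]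
    have h2 : 6 * δ / l = 6 * (δ / l) := by ring
    rw [h2] at hx
    rw [hC']
    have h3 : (6 * (Real.sqrt (144 * ((N : ℝ) + 1) * n * Real.sqrt C) * Real.sqrt (4 * n)) +
        C * Real.sqrt (4 * n)) * E = 6 * (Real.sqrt (144 * ((N : ℝ) + 1) * n * Real.sqrt C) *
        Real.sqrt (4 * n) * E) + C * Real.sqrt (4 * n) * E := by ring
    rw [h3]
    linarith
  refine ⟨hinj, hdiff, L, c₀, ?_, ?_, ?_⟩
  · intro q
    refine (hc1 q).trans ?_
    rw [hC']
    have h3 : (6 * (Real.sqrt (144 * ((N : ℝ) + 1) * n * Real.sqrt C) * Real.sqrt (4 * n)) +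
        C * Real.sqrt (4 * n)) * E = 6 * (Real.sqrt (144 * ((N : ℝ) + 1) * n * Real.sqrt C) *
        Real.sqrt (4 * n) * E) + C * Real.sqrt (4 * n) * E := by ring
    rw [h3]
    linarith
  · intro q
    obtain ⟨y, hy, hy2⟩ := hc2 q
    exact ⟨y, hy, key _ y hy hy2⟩
  · intro y hy
    obtain ⟨q, hq⟩ := hc3 y hy
    exact ⟨q, key _ y hy hq⟩

end Helper6.HC
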